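import Mathlib

set_option autoImplicit false

open Filter Topology InnerProductSpace Finset

namespace Pool.Agent.Results.MP_653b50_an.NoFatou

/-- The region R of the product of upper half planes where the heights are comparable. -/
def regionR (n : ℕ) (c₁ c₂ : ℝ) : Set (Fin n → ℂ) :=
  {z | (∀ j, 0 < (z j).im) ∧
    ∀ j k, j < k → c₁ ≤ (z j).im / (z k).im ∧ (z j).im / (z k).im ≤ c₂}

/-- The product cone with vertex x. -/
def cone (n : ℕ) (x : Fin n → ℝ) : Set (Fin n → ℂ) :=
  {z | (∀ j, 0 < (z j).im) ∧ ∀ j, |(z j).re - x j| < (z j).im}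

noncomputable def T (k : ℕ) (y : ℝ) : ℝ := 1000 ^ k * y * Real.exp (-(1000 ^ k * y))

theorem T_nonneg (k : ℕ) {y : ℝ} (hy : 0 < y) : 0 ≤ T k y := by unfold T; positivity

theorem tel (s : ℝ) (hs : 0 ≤ s) :
    s * Real.exp (-s) ≤ 2 * (Real.exp (-(s / 1000)) - Real.exp (-s)) := by
  have h1 : Real.exp (-(s / 1000)) = Real.exp (-s) * Real.exp (999 / 1000 * s) := by
    rw [← Real.exp_add]; congr 1; ring
  have h2 := Real.add_one_le_exp (999 / 1000 * s)
  have h3 := Real.exp_pos (-s)
  rw [h1]
  nlinarith [mul_nonneg hs h3.le]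

theorem T_part (y : ℝ) (hy : 0 < y) (m : ℕ) :
    ∑ k ∈ range m, T k y ≤ 2 * (Real.exp (-(y / 1000)) - Real.exp (-(1000 ^ m * y / 1000))) := by
  induction m with
  | zero => simp
  | succ m ih =>
    rw [sum_range_succ]
    have := tel (1000 ^ m * y) (by positivity)
    have e : (1000 : ℝ) ^ (m + 1) * y / 1000 = 1000 ^ m * y := by ring
    rw [e]
    unfold T at *
    linarith

theorem T_le (y : ℝ) (hy : 0 < y) (m : ℕ) : ∑ k ∈ range m, T k y ≤ 2 * Real.exp (-(y / 1000)) := by
  linarith [T_part y hy m, Real.exp_pos (-(1000 ^ m * y / 1000))]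

theorem T_summable (y : ℝ) (hy : 0 < y) : Summable (fun k => T k y) :=
  summable_of_sum_range_le (fun k => T_nonneg k hy) (T_le y hy)

theorem T_tsum (y : ℝ) (hy : 0 < y) : ∑' k, T k y ≤ 2 * Real.exp (-(y / 1000)) :=
  (T_summable y hy).tsum_le_of_sum_range_le (T_le y hy)

noncomputable def term (k : ℕ) (z : ℂ) : ℂ := 1000 ^ k * Complex.exp (Complex.I * 1000 ^ k * z)

noncomputable def g (z : ℂ) : ℂ := ∑' k, term k z

theorem term_norm (k : ℕ) (z : ℂ) : ‖term k z‖ = 1000 ^ k * Real.exp (-(1000 ^ k * z.im)) := by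
  unfold term
  rw [norm_mul, Complex.norm_exp]
  have : ((1000 : ℂ) ^ k) = ((1000 ^ k : ℝ) : ℂ) := by push_cast; rfl
  rw [this]
  simp [-Complex.ofReal_pow]

theorem term_re (k : ℕ) (z : ℂ) : z.im * (term k z).re = T k z.im * Real.cos (1000 ^ k * z.re) := by
  unfold term T
  have : ((1000 : ℂ) ^ k) = ((1000 ^ k : ℝ) : ℂ) := by push_cast; rfl
  rw [this, Complex.re_ofReal_mul, Complex.exp_re]
  simp [-Complex.ofReal_pow]
  ring

theorem g_analytic (z : ℂ) (hz : 0 < z.im) : AnalyticAt ℂ g z := by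
  have hU : IsOpen {w : ℂ | z.im / 2 < w.im} := isOpen_lt continuous_const Complex.continuous_im
  have h := Complex.differentiableOn_tsum_of_summable_norm (F := term)
    ((T_summable (z.im / 2) (by linarith)).div_const (z.im / 2))
    (fun k => by unfold term; fun_prop) hU (fun k w hw => by
      rw [term_norm, T, le_div_iff₀ (by linarith)]
      have h1 : Real.exp (-(1000 ^ k * w.im)) ≤ Real.exp (-(1000 ^ k * (z.im / 2))) := by
        apply Real.exp_le_exp.2
        have : (1000 : ℝ) ^ k * (z.im / 2) ≤ 1000 ^ k * w.im :=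
          mul_le_mul_of_nonneg_left (le_of_lt hw) (by positivity)
        linarith
      have h2 : (0 : ℝ) ≤ 1000 ^ k * (z.im / 2) := by positivity
      nlinarith)
  exact h.analyticAt (hU.mem_nhds (by show z.im / 2 < z.im; linarith))

theorem g_sum (z : ℂ) (hz : 0 < z.im) :
    HasSum (fun k => T k z.im * Real.cos (1000 ^ k * z.re)) (z.im * (g z).re) := by
  have h1 : Summable (fun k => term k z) := by
    refine Summable.of_norm (((T_summable z.im hz).div_const z.im).congr (fun k => ?_))
    rw [term_norm, T]; field_simp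
  have h2 := (Complex.hasSum_re h1.hasSum).mul_left z.im
  simp only [term_re] at h2
  exact h2

theorem cos_bd (t a : ℝ) (ht : 0 ≤ t) : ‖t * Real.cos a‖ ≤ t := by
  rw [Real.norm_eq_abs, abs_mul, abs_of_nonneg ht]
  exact mul_le_of_le_one_right ht (Real.abs_cos_le_one a)

theorem g_bd (z : ℂ) (hz : 0 < z.im) : |z.im * (g z).re| ≤ 2 := by
  have h := (g_sum z hz).norm_le_of_bounded (T_summable _ hz).hasSum
    (fun k => cos_bd _ _ (T_nonneg k hz))
  have h2 := T_tsum _ hz
  have h3 : Real.exp (-(z.im / 1000)) ≤ 1 := Real.exp_le_one_iff.2 (by linarith)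
  rw [Real.norm_eq_abs] at h
  linarith

theorem g_main (m : ℕ) (z : ℂ) (hz : z.im = 4 / 1000 ^ m) :
    |z.im * (g z).re - 4 * Real.exp (-4) * Real.cos (1000 ^ m * z.re)|
      ≤ 2 * Real.exp (-4) + 1 / 200 := by
  have hz0 : 0 < z.im := by rw [hz]; positivity
  have h1 := g_sum z hz0
  rw [← hasSum_nat_add_iff' (m + 1), sum_range_succ] at h1
  have hs : Summable (fun k => T (k + (m + 1)) z.im) := (summable_nat_add_iff _).2 (T_summable _ hz0)
  have h2 := h1.norm_le_of_bounded hs.hasSum (fun k => cos_bd _ _ (T_nonneg _ hz0))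
  have h3 : ∑' k, T (k + (m + 1)) z.im ≤ 2 * Real.exp (-4) := by
    have e : ∀ k, T (k + (m + 1)) z.im = T k 4000 := fun k => by
      have : (1000 : ℝ) ^ (k + (m + 1)) * z.im = 1000 ^ k * 4000 := by rw [hz]; field_simp; ring
      unfold T; rw [this]
    simp only [e]
    have := T_tsum 4000 (by norm_num)
    norm_num at this ⊢
    exact this
  have h4 : T m z.im = 4 * Real.exp (-4) := by
    have : (1000 : ℝ) ^ m * z.im = 4 := by rw [hz]; field_simp
    unfold T; rw [this]
  have h5 : ∀ j, ∑ k ∈ range j, (1000 : ℝ) ^ k ≤ 1000 ^ j / 800 := fun j => by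
    induction j with
    | zero => simp
    | succ j ih =>
      rw [sum_range_succ, pow_succ]
      have : (0 : ℝ) < 1000 ^ j := by positivity
      linarith
  have h6 : |∑ k ∈ range m, T k z.im * Real.cos (1000 ^ k * z.re)| ≤ 1 / 200 := by
    refine (abs_sum_le_sum_abs _ _).trans ?_
    have e1 : ∑ k ∈ range m, |T k z.im * Real.cos (1000 ^ k * z.re)| ≤
        ∑ k ∈ range m, (1000 : ℝ) ^ k * z.im := sum_le_sum (fun k _ => by
      refine (cos_bd _ _ (T_nonneg k hz0)).trans ?_
      exact mul_le_of_le_one_right (by positivity) (Real.exp_le_one_iff.2 (by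
        have : (0 : ℝ) ≤ 1000 ^ k * z.im := by positivity
        linarith)))
    rw [← sum_mul] at e1
    have e2 := mul_le_mul_of_nonneg_right (h5 m) hz0.le
    have e3 : (1000 : ℝ) ^ m / 800 * z.im = 1 / 200 := by rw [hz]; field_simp; norm_num
    linarith
  rw [h4, Real.norm_eq_abs] at h2
  rw [abs_le] at h2 h6 ⊢
  constructor <;> linarith [h2.1, h2.2, h6.1, h6.2]

theorem exp_four : 1 / 60 < Real.exp (-4) := by
  have h1 : Real.exp 4 = Real.exp 1 ^ 4 := by rw [← Real.exp_nat_mul]; norm_num
  have h2 : Real.exp 1 ^ 4 < (2.72 : ℝ) ^ 4 :=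
    pow_lt_pow_left₀ (by linarith [Real.exp_one_lt_d9]) (Real.exp_pos 1).le (by norm_num)
  rw [Real.exp_neg, one_div, inv_lt_inv₀ (by norm_num) (Real.exp_pos 4), h1]
  linarith [show (2.72 : ℝ) ^ 4 < 60 by norm_num]

theorem near (a b : ℝ) : ∃ s : ℝ, |s - a| < 4 ∧ Real.cos s = Real.cos b := by
  refine ⟨b + (round ((a - b) / (2 * Real.pi)) : ℤ) * (2 * Real.pi), ?_, Real.cos_add_int_mul_two_pi _ _⟩
  have h := abs_sub_round ((a - b) / (2 * Real.pi))
  have hp := Real.pi_pos
  have e : b + (round ((a - b) / (2 * Real.pi)) : ℤ) * (2 * Real.pi) - a =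
      -(((a - b) / (2 * Real.pi) - round ((a - b) / (2 * Real.pi))) * (2 * Real.pi)) := by
    field_simp; ring
  rw [e, abs_neg, abs_mul, abs_of_pos (by positivity : 0 < 2 * Real.pi)]
  nlinarith [Real.pi_lt_d2]

theorem result (n : ℕ) (c₁ c₂ : ℝ) (hc₁ : 0 < c₁) (hne : (regionR (n + 2) c₁ c₂).Nonempty) :
    ∃ u : (Fin (n + 2) → ℂ) → ℝ,
      (∀ z : Fin (n + 2) → ℂ, (∀ j, 0 < (z j).im) →
        ∀ j, HarmonicAt (fun w : ℂ => u (Function.update z j w)) (z j)) ∧
      (∃ C : ℝ, ∀ z ∈ regionR (n + 2) c₁ c₂, |u z| ≤ C) ∧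
      ∀ x : Fin (n + 2) → ℝ, ¬ ∃ l : ℝ,
        Tendsto u (𝓝[cone (n + 2) x ∩ regionR (n + 2) c₁ c₂] (fun j => (x j : ℂ))) (𝓝 l) := by
  have h01 : (0 : Fin (n + 2)) < 1 := Fin.zero_lt_one
  refine ⟨fun z => (z 1).im * (g (z 0)).re, fun z hz j => ?_, ⟨2 / c₁, fun z hz => ?_⟩, ?_⟩
  · by_cases h0 : j = 0
    · subst h0
      simp only [Function.update_self, Function.update_of_ne h01.ne']
      exact (g_analytic _ (hz 0)).harmonicAt_re.const_smul (c := (z 1).im)
    · by_cases h1 : j = 1
      · subst h1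
        simp only [Function.update_self, Function.update_of_ne h01.ne]
        have := (analyticAt_id (𝕜 := ℂ) (z := z 1)).harmonicAt_im.const_smul (c := (g (z 0)).re)
        refine (harmonicAt_congr_nhds (Eventually.of_forall (fun w => ?_))).1 this
        simp [mul_comm]
      · simp only [Function.update_of_ne (Ne.symm h0), Function.update_of_ne (Ne.symm h1)]
        exact harmonicAt_const _
  · have h0 := hz.1 0
    have h1 := hz.1 1
    have h2 := (hz.2 0 1 h01).1
    rw [le_div_iff₀ h1] at h2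
    have h3 := g_bd _ h0
    rw [abs_mul, abs_of_pos h0] at h3
    rw [abs_mul, abs_of_pos h1, le_div_iff₀ hc₁]
    nlinarith [abs_nonneg (g (z 0)).re]
  · rintro x ⟨l, hl⟩
    obtain ⟨Y, hY0, hY⟩ := hne
    have key : ∀ b : ℝ, |l * (Y 0).im / (Y 1).im - 4 * Real.exp (-4) * Real.cos b|
        ≤ 2 * Real.exp (-4) + 1 / 200 := by
      intro b
      choose s hs1 hs2 using fun m : ℕ => near (1000 ^ m * x 0) b
      let z : ℕ → Fin (n + 2) → ℂ := fun m j =>
        ⟨if j = 0 then s m / 1000 ^ m else x j, 4 / 1000 ^ m * ((Y j).im / (Y 0).im)⟩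
      have hz0 : ∀ m, (z m 0).im = 4 / 1000 ^ m := fun m => by
        simp only [z]; rw [div_self (hY0 0).ne', mul_one]
      have hpos : ∀ m j, 0 < (z m j).im := fun m j => by
        have := hY0 j; have := hY0 0; simp only [z]; positivity
      have hre : ∀ m j, |(z m j).re - x j| < (z m j).im := fun m j => by
        by_cases hj : j = 0
        · subst hj
          rw [hz0]
          simp only [z, if_true]
          have e : s m / 1000 ^ m - x 0 = (s m - 1000 ^ m * x 0) / 1000 ^ m := by field_simp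
          rw [e, abs_div, abs_of_pos (by positivity : (0 : ℝ) < 1000 ^ m)]
          exact div_lt_div_of_pos_right (hs1 m) (by positivity)
        · have := hpos m j
          simp only [z, if_neg hj, sub_self, abs_zero] at this ⊢
          exact this
      have him : ∀ j, Tendsto (fun m => (z m j).im) atTop (𝓝 0) := fun j => by
        have := ((tendsto_pow_atTop_nhds_zero_of_lt_one (r := (1000 : ℝ)⁻¹) (by norm_num)
          (by norm_num)).const_mul 4).mul_const ((Y j).im / (Y 0).im)
        simpa [z, div_eq_mul_inv] using this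
      have hlim : Tendsto z atTop (𝓝[cone (n + 2) x ∩ regionR (n + 2) c₁ c₂]
          (fun j => (x j : ℂ))) := by
        refine tendsto_nhdsWithin_iff.2 ⟨tendsto_pi_nhds.2 (fun j => ?_),
          Eventually.of_forall (fun m => ⟨⟨hpos m, hre m⟩, hpos m, fun j k hjk => ?_⟩)⟩
        · rw [tendsto_iff_norm_sub_tendsto_zero]
          refine squeeze_zero (fun _ => norm_nonneg _) (fun m => ?_)
            (by simpa using (him j).const_mul 2)
          refine (Complex.norm_le_abs_re_add_abs_im _).trans ?_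
          simp only [Complex.sub_re, Complex.ofReal_re, Complex.sub_im, Complex.ofReal_im, sub_zero]
          rw [abs_of_pos (hpos m j)]
          linarith [hre m j]
        · have e : (z m j).im / (z m k).im = (Y j).im / (Y k).im := by
            have := hY0 k; have := hY0 0; simp only [z]; field_simp
          rw [e]; exact hY j k hjk
      have h2 := (((hl.comp hlim).mul_const (Y 0).im).div_const (Y 1).im).sub_const
        (4 * Real.exp (-4) * Real.cos b)
      refine le_of_tendsto' h2.abs (fun m => ?_)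
      have h3 := g_main m (z m 0) (hz0 m)
      have e1 : (1000 : ℝ) ^ m * (z m 0).re = s m := by simp only [z, if_true]; field_simp
      have e2 : (z m 1).im * (g (z m 0)).re * (Y 0).im / (Y 1).im = (z m 0).im * (g (z m 0)).re := by
        have := hY0 1; have := hY0 0
        rw [hz0]; simp only [z]; field_simp
      rw [e1, hs2] at h3
      simp only [Function.comp]
      rw [e2]
      exact h3
    have k1 := key 0
    have k2 := key Real.pi
    rw [Real.cos_zero, abs_le] at k1
    rw [Real.cos_pi, abs_le] at k2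
    linarith [k1.1, k2.2, exp_four]

end Pool.Agent.Results.MP_653b50_an.NoFatou
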